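import Pool.Agent.helper74.XP.SpecP

/-! xp: ENC: the energy inequality for a combination of cycles of different periods. -/

set_option autoImplicit false

open Complex Metric Set Filter Topology MeasureTheory MPS PPS Pool.Agent.helper16.Multibrot

noncomputable section

namespace XPP

theorem ENC_it {f : Polynomial ℂ} (O : CY f) (m : ℕ) (i : ZMod O.k) :
    (fun z => f.eval z)^[m] (O.b i) = O.b (i + (m : ZMod O.k)) := by
  induction m with
  | zero => simp
  | succ m ih =>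
    rw [Function.iterate_succ_apply', ih]
    show f.eval (O.b (i + (m : ZMod O.k))) = _
    rw [O.cyc.step]
    congr 1
    push_cast
    ring

theorem ENC_dvd {f : Polynomial ℂ} (O C : CY f) (i : ZMod O.k) (l : ZMod C.k)
    (h : O.b i = C.b l) : O.k ∣ C.k := by
  have h1 : (fun z => f.eval z)^[C.k] (O.b i) = O.b i := by
    rw [h, ENC_it, ZMod.natCast_self, add_zero]
  rw [ENC_it] at h1
  have h2 := O.cyc.inj h1
  have h3 : ((C.k : ℕ) : ZMod O.k) = 0 := by simpa using h2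
  exact (ZMod.natCast_eq_zero_iff _ _).1 h3

theorem ENC_kk {f : Polynomial ℂ} (O C : CY f) (i : ZMod O.k) (l : ZMod C.k)
    (h : O.b i = C.b l) : O.k = C.k :=
  Nat.dvd_antisymm (ENC_dvd O C i l h) (ENC_dvd C O l i h.symm)

section gen

variable {f : Polynomial ℂ} (I : Finset (Option ℕ)) (D : Option ℕ → CY f) (α : Option ℕ → ℂ)

def ENC_P : Finset ℂ := I.biUnion fun i => Finset.univ.image (D i).b

def ENC_A (p : ℂ) : ℂ := ∑ i ∈ I, ∑ l, if (D i).b l = p then α i else 0

def ENC_G (p : ℂ) : ℂ := ∑ i ∈ I, ∑ l, if (D i).b l = p then α i * (D i).g l else 0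

theorem ENC_mem {p : ℂ} : p ∈ ENC_P I D ↔ ∃ i ∈ I, ∃ l, (D i).b l = p := by
  unfold ENC_P
  simp [Finset.mem_biUnion]

theorem ENC_qp (z : ℂ) :
    QP (ENC_P I D) (ENC_A I D α) (ENC_G I D α) z = ∑ i ∈ I, α i * (D i).B z := by
  unfold QP
  have h1 : ∀ p ∈ ENC_P I D, ENC_A I D α p / (z - p) ^ 2 + ENC_G I D α p / (z - p) =
      ∑ i ∈ I, ∑ l, if (D i).b l = p then
        α i * (1 / (z - (D i).b l) ^ 2 + (D i).g l / (z - (D i).b l)) else 0 := by
    intro p _
    unfold ENC_A ENC_G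
    rw [Finset.sum_div, Finset.sum_div, ← Finset.sum_add_distrib]
    refine Finset.sum_congr rfl fun i _ => ?_
    rw [Finset.sum_div, Finset.sum_div, ← Finset.sum_add_distrib]
    refine Finset.sum_congr rfl fun l _ => ?_
    by_cases h : (D i).b l = p
    · rw [if_pos h, if_pos h, if_pos h, h]
      ring
    · rw [if_neg h, if_neg h, if_neg h]
      simp
  rw [Finset.sum_congr rfl h1, Finset.sum_comm]
  refine Finset.sum_congr rfl fun i hi => ?_
  rw [Finset.sum_comm]
  unfold CY.B BB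
  rw [Finset.mul_sum]
  refine Finset.sum_congr rfl fun l _ => ?_
  rw [Finset.sum_ite_eq, if_pos ((ENC_mem I D).2 ⟨i, hi, l, rfl⟩)]

theorem ENC_val (hd : ∀ i ∈ I, ∀ j ∈ I, (D i).k = (D j).k → i = j) (i : Option ℕ) (hi : i ∈ I)
    (l : ZMod (D i).k) : ENC_A I D α ((D i).b l) = α i := by
  unfold ENC_A
  rw [Finset.sum_eq_single i]
  · rw [Finset.sum_eq_single l]
    · rw [if_pos rfl]
    · intro m _ hm
      rw [if_neg]
      intro h
      exact hm ((D i).cyc.inj h)
    · intro h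
      exact absurd (Finset.mem_univ l) h
  · intro j hj hji
    refine Finset.sum_eq_zero fun m _ => ?_
    rw [if_neg]
    intro h
    exact hji (hd j hj i hi (ENC_kk _ _ _ _ h))
  · intro h
    exact absurd hi h

theorem ENC_sum (hd : ∀ i ∈ I, ∀ j ∈ I, (D i).k = (D j).k → i = j) (φ : ℂ → ℝ) :
    ∑ p ∈ ENC_P I D, ‖ENC_A I D α p‖ * φ p = ∑ i ∈ I, ‖α i‖ * ∑ l, φ ((D i).b l) := by
  unfold ENC_P
  rw [Finset.sum_biUnion]
  · refine Finset.sum_congr rfl fun i hi => ?_
    rw [Finset.sum_image]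
    · rw [Finset.mul_sum]
      refine Finset.sum_congr rfl fun l _ => ?_
      rw [ENC_val I D α hd i hi l]
    · intro x _ y _ hxy
      exact (D i).cyc.inj hxy
  · intro i hi j hj hij
    rw [Function.onFun, Finset.disjoint_left]
    intro p hp hp'
    rw [Finset.mem_image] at hp hp'
    obtain ⟨l, _, rfl⟩ := hp
    obtain ⟨m, _, hm⟩ := hp'
    exact hij (hd i hi j hj (ENC_kk _ _ _ _ hm.symm))

end gen

theorem ENC_L {f : Polynomial ℂ} (O : CY f) : ∑ l, Real.log ‖fd f (O.b l)‖ = O.L := by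
  unfold CY.L PPS.rho
  rw [norm_prod, Real.log_prod]
  intro i _
  exact norm_ne_zero_iff.2 (O.cyc.ne0 i)

theorem ENC_Bd {f : Polynomial ℂ} (O : CY f) (z : ℂ) (hz : ∀ i, O.b i ≠ z) :
    DifferentiableAt ℂ (fun z => BB O.b O.g z) z := by
  unfold BB
  refine DifferentiableAt.fun_sum fun i _ => ?_
  have h0 : z - O.b i ≠ 0 := sub_ne_zero.2 (hz i).symm
  have h1 : DifferentiableAt ℂ (fun z => z - O.b i) z := differentiableAt_id.sub_const _
  exact ((differentiableAt_const _).div (h1.pow 2) (pow_ne_zero 2 h0)).add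
    ((differentiableAt_const _).div h1 h0)

theorem ENC (hENQ : ENQ_stmt) : ENC_stmt := by
  intro n f O J C a R hn hdeg hOR hCR hCO hCC hR hfR hT
  set D : Option ℕ → CY f := fun o => o.elim O C with hD
  set α : Option ℕ → ℂ := fun o => o.elim 1 (fun j => - a j) with hα
  set I : Finset (Option ℕ) := Finset.insertNone J with hI
  have hmemI : ∀ o, o ∈ I ↔ o = none ∨ ∃ j ∈ J, o = some j := by
    intro o
    rw [hI, Finset.mem_insertNone]
    cases o with
    | none => simp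
    | some j => simp
  have hd : ∀ i ∈ I, ∀ j ∈ I, (D i).k = (D j).k → i = j := by
    intro i hi j hj hij
    rcases (hmemI i).1 hi with rfl | ⟨i', hi', rfl⟩ <;>
      rcases (hmemI j).1 hj with rfl | ⟨j', hj', rfl⟩
    · rfl
    · exact absurd hij.symm (hCO j' hj')
    · exact absurd hij (hCO i' hi')
    · rw [hCC i' hi' j' hj' hij]
  have hq : (fun z => BB O.b O.g z + rJ J C a z) =
      QP (ENC_P I D) (ENC_A I D α) (ENC_G I D α) := by
    funext z
    rw [ENC_qp, hI, Finset.sum_insertNone]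
    show BB O.b O.g z + rJ J C a z = 1 * O.B z + ∑ j ∈ J, - a j * (C j).B z
    unfold rJ CY.B
    rw [one_mul, ← Finset.sum_neg_distrib]
    simp
  have hPJfin : (PJ J C).Finite := by
    have : PJ J C = ⋃ j ∈ J, Set.range (C j).b := by
      ext z
      unfold PJ
      simp
    rw [this]
    exact Set.Finite.biUnion J.finite_toSet fun j _ => Set.finite_range _
  have hmem : ∀ p, p ∈ ENC_P I D ↔ p ∈ Set.range O.b ∪ PJ J C := by
    intro p
    rw [ENC_mem]
    constructor
    · rintro ⟨o, ho, l, hl⟩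
      rcases (hmemI o).1 ho with rfl | ⟨j, hj, rfl⟩
      · exact Or.inl ⟨l, hl⟩
      · exact Or.inr ⟨j, hj, l, hl⟩
    · rintro (⟨l, hl⟩ | ⟨j, hj, l, hl⟩)
      · exact ⟨none, (hmemI _).2 (Or.inl rfl), l, hl⟩
      · exact ⟨some j, (hmemI _).2 (Or.inr ⟨j, hj, rfl⟩), l, hl⟩
  have hinv : ∀ z ∈ Set.range O.b ∪ PJ J C, f.eval z ∈ Set.range O.b ∪ PJ J C := by
    rintro z (⟨l, rfl⟩ | ⟨j, hj, l, rfl⟩)
    · exact Or.inl ⟨l + 1, (O.cyc.step l).symm⟩
    · exact Or.inr ⟨j, hj, l + 1, ((C j).cyc.step l).symm⟩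
  have hrd : ∀ z, z ∉ PJ J C → DifferentiableAt ℂ (rJ J C a) z := by
    intro z hz
    have h1 : DifferentiableAt ℂ (fun z => -∑ j ∈ J, a j * (C j).B z) z := by
      refine DifferentiableAt.fun_neg (DifferentiableAt.fun_sum fun j hj => ?_)
      refine (differentiableAt_const _).mul ?_
      refine ENC_Bd (C j) z ?_
      intro i hi
      exact hz ⟨j, hj, i, hi⟩
    exact h1
  have hd1 : 1 ≤ f.natDegree := by omega
  refine ⟨?_, hrd, ?_⟩
  · rintro i ⟨j, hj, l, hl⟩
    exact hCO j hj (ENC_kk _ _ _ _ hl)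
  · have hLpos : ∀ Q : CY f, 0 ≤ Q.L := fun Q => Real.log_nonneg Q.rep.le
    refine ⟨hn, hdeg, ⟨hd1, (Set.finite_range _).union hPJfin, hinv, ?_⟩, hR, hfR, ?_, ?_⟩
    · intro z hz
      have hz1 : ∀ i, O.b i ≠ z := fun i hi => hz (Or.inl ⟨i, hi⟩)
      have hz2 : z ∉ PJ J C := fun h => hz (Or.inr h)
      exact ((ENC_Bd O z hz1).add (hrd z hz2)).differentiableWithinAt
    · have h1 : 0 ≤ ∑ j ∈ J, ‖a j‖ * (C j).L :=
        Finset.sum_nonneg fun j _ => mul_nonneg (norm_nonneg _) (hLpos _)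
      have h2 := hLpos O
      have h3 := Real.pi_pos
      positivity
    · rw [hq] at hT ⊢
      have hT' : ∀ᵐ z : ℂ, TT f (QP (ENC_P I D) (ENC_A I D α) (ENC_G I D α)) z =
          QP (ENC_P I D) (ENC_A I D α) (ENC_G I D α) z := by
        filter_upwards [hT] with z hz
        rw [hz, ← hq]
      have h1 := hENQ f (ENC_P I D) (ENC_A I D α) (ENC_G I D α) R hd1 ?_ hR hfR hT'
      · refine h1.trans (ENNReal.ofReal_le_ofReal ?_)
        refine mul_le_mul_of_nonneg_left (le_of_eq ?_) (by positivity)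
        rw [ENC_sum I D α hd, hI, Finset.sum_insertNone]
        show ‖(1 : ℂ)‖ * ∑ l, Real.log ‖fd f (O.b l)‖ +
          ∑ j ∈ J, ‖- a j‖ * ∑ l, Real.log ‖fd f ((C j).b l)‖ = _
        rw [norm_one, one_mul, ENC_L]
        congr 1
        refine Finset.sum_congr rfl fun j _ => ?_
        rw [norm_neg, ENC_L]
      · intro p hp
        refine ⟨(hmem _).2 (hinv p ((hmem p).1 hp)), ?_, ?_⟩
        · rcases (hmem p).1 hp with ⟨l, rfl⟩ | ⟨j, _, l, rfl⟩
          · exact O.cyc.ne0 l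
          · exact (C j).cyc.ne0 l
        · rcases (hmem p).1 hp with ⟨l, rfl⟩ | ⟨j, hj, l, rfl⟩
          · exact hOR l
          · exact hCR j hj l

end XPP
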