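import Pool.Agent.helper74.XP.SpecR
import Pool.Agent.helper59.MP.FB

/-! xp: XU: the uniform form of Theorem X prime. -/

set_option autoImplicit false

open Complex Metric Set Filter Topology MeasureTheory MPS PPS Pool.Agent.helper16.Multibrot

noncomputable section

namespace XPP

theorem XU_closed (H : Set ℂ) (r : ℝ) : IsClosed {c : ℂ | Disjoint (ball c r) H} := by
  have h1 : {c : ℂ | Disjoint (ball c r) H}ᶜ = ⋃ h ∈ H, ball h r := by
    ext c
    rw [Set.mem_compl_iff, Set.mem_ofPred_eq, Set.not_disjoint_iff]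
    simp only [Set.mem_iUnion, exists_prop]
    constructor
    · rintro ⟨h, h1, h2⟩
      exact ⟨h, h2, by rw [mem_ball, dist_comm]; exact h1⟩
    · rintro ⟨h, h1, h2⟩
      exact ⟨h, by rw [mem_ball, dist_comm]; exact h2, h1⟩
  rw [← isOpen_compl_iff, h1]
  exact isOpen_biUnion fun h _ => isOpen_ball

theorem XU (hXF : XF_stmt) (hHAK : HAK_stmt) (hZBIG : MPS.ZBIG_stmt) (hZN : MPS.ZN_stmt)
    (hZC : MPS.ZC_stmt) : XU_stmt := by
  intro n hn
  obtain ⟨ε', hε', hfin⟩ := hXF n hn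
  obtain ⟨ε, hεd⟩ : ∃ ε : ℝ, ε = min (1 / 2) (ε' / 5) := ⟨_, rfl⟩
  have hε : 0 < ε := by rw [hεd]; exact lt_min (by norm_num) (by positivity)
  have hε1 : ε ≤ 1 / 2 := by rw [hεd]; exact min_le_left _ _
  have hε2 : ε ≤ ε' / 5 := by rw [hεd]; exact min_le_right _ _
  have hcube : (1 + ε) ^ 3 ≤ 1 + ε' := by
    have h1 : ε ^ 2 ≤ ε / 2 := by nlinarith
    have h2 : ε ^ 3 ≤ ε / 4 := by
      have : ε ^ 3 = ε ^ 2 * ε := by ring
      nlinarith
    nlinarith
  refine ⟨ε, hε, ?_⟩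
  intro r hr
  have hcomp : IsCompact (closedBall (0 : ℂ) 3 ∩ {c : ℂ | Disjoint (ball c r) (hyperbolic n)}) :=
    (isCompact_closedBall _ _).inter_right (XU_closed _ _)
  obtain ⟨t, hts, htf, htc⟩ := hcomp.finite_cover_balls (half_pos hr)
  have hbd : ∀ c₀ : ℂ, ∃ K : ℕ, Disjoint (ball c₀ r) (hyperbolic n) → ∀ z : ℂ,
      (∃ k : ℕ, 0 < k ∧ Function.minimalPeriod (fc n c₀) z = k ∧ ‖MPS.mlt n k c₀ z‖ < 1 + ε') →
      Function.minimalPeriod (fc n c₀) z < K := by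
    intro c₀
    by_cases hd : Disjoint (ball c₀ r) (hyperbolic n)
    · have hc : c₀ ∉ closure (hyperbolic n) := by
        intro hcl
        rw [Metric.mem_closure_iff] at hcl
        obtain ⟨b, hb, hb'⟩ := hcl r hr
        exact Set.disjoint_left.1 hd (by rw [mem_ball, dist_comm]; exact hb') hb
      have h1 := hfin c₀ hc
      obtain ⟨K, hK⟩ := (h1.image (fun z => Function.minimalPeriod (fc n c₀) z)).bddAbove
      refine ⟨K + 1, fun _ z hz => ?_⟩
      have h2 := hK (Set.mem_image_of_mem _ hz)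
      exact Nat.lt_succ_of_le h2
    · exact ⟨0, fun h => absurd h hd⟩
  choose Kf hKf using hbd
  obtain ⟨K, hK⟩ := (htf.image Kf).bddAbove
  refine ⟨K, ?_⟩
  intro c hdis k z hKk hk hmin
  by_contra hcon
  push Not at hcon
  have hper : (fc n c)^[k] z = z := by
    have h1 := Function.iterate_minimalPeriod (f := fc n c) (x := z)
    rwa [hmin] at h1
  have hc3 : ‖c‖ < 3 := by
    by_contra h3
    push Not at h3
    have h1 := hZBIG n k c z hn hk h3 hper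
    have h2 : (3 / 2 : ℝ) ≤ (3 / 2 : ℝ) ^ k := by
      calc (3 / 2 : ℝ) = (3 / 2 : ℝ) ^ 1 := (pow_one _).symm
        _ ≤ (3 / 2 : ℝ) ^ k := pow_le_pow_right₀ (by norm_num) hk
    linarith
  have hcA : c ∈ closedBall (0 : ℂ) 3 ∩ {c : ℂ | Disjoint (ball c r) (hyperbolic n)} :=
    ⟨by rw [mem_closedBall_zero_iff]; exact hc3.le, hdis⟩
  have hcov := htc hcA
  simp only [Set.mem_iUnion, exists_prop] at hcov
  obtain ⟨c₀, hc₀t, hcc⟩ := hcov
  have hc₀ := hts hc₀t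
  have hdis₀ : Disjoint (ball c₀ r) (hyperbolic n) := hc₀.2
  have hrep := hZN n c r hn hdis
  obtain ⟨ζ, hζ, hζc, hζp⟩ := hZC n k c r hn hk hr
    (fun c' hc' z' hz' => hrep c' hc' k z' hk hz') z hmin
  have hgt : ∀ c' ∈ ball c r, 1 < ‖MPS.mlt n k c' (ζ c')‖ := by
    intro c' hc'
    refine hrep c' hc' k (ζ c') hk ?_
    have h1 := Function.iterate_minimalPeriod (f := fc n c') (x := ζ c')
    rwa [hζp c' hc'] at h1
  have hnear : ‖c₀ - c‖ ≤ r / 2 := by
    rw [mem_ball, dist_comm, dist_eq_norm] at hcc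
    exact hcc.le
  have hmem : c₀ ∈ ball c r := by
    rw [mem_ball, dist_eq_norm]
    linarith
  have hH := hHAK (fun c' => MPS.mlt n k c' (ζ c')) c c₀ r hr (FB_mltDiff n k hζ) hgt hnear
  simp only [hζc] at hH
  have h1 := hgt c₀ hmem
  have h2 : 1 < ‖MPS.mlt n k c z‖ := by
    have := hgt c (mem_ball_self hr)
    rwa [hζc] at this
  have h3 : Real.log ‖MPS.mlt n k c₀ (ζ c₀)‖ ≤ Real.log (‖MPS.mlt n k c z‖ ^ 3) := by
    rw [Real.log_pow]
    exact_mod_cast hH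
  have h4 : ‖MPS.mlt n k c₀ (ζ c₀)‖ ≤ ‖MPS.mlt n k c z‖ ^ 3 :=
    (Real.log_le_log_iff (by linarith) (by positivity)).1 h3
  have h5 : ‖MPS.mlt n k c z‖ ^ 3 < (1 + ε) ^ 3 :=
    pow_lt_pow_left₀ hcon (by linarith) (by norm_num)
  have h6 := hKf c₀ hdis₀ (ζ c₀) ⟨k, hk, hζp c₀ hmem, by linarith⟩
  rw [hζp c₀ hmem] at h6
  have h7 : Kf c₀ ≤ K := hK (Set.mem_image_of_mem _ hc₀t)
  omega

end XPP
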